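import Pool.Agent.N874.QM.Stm
import Pool.Agent.N169.PM.SPD

/-!
QM/SPD: density at the primes modulo which `m` splits (Newton's method), over number fields.

A port of `Pool/Agent/N169/PM/SPD.lean` (helper169) by helper835.
-/

set_option autoImplicit false
set_option linter.all false

open Polynomial IsDedekindDomain NumberField
open scoped Classical IntermediateField

namespace Pool.Agent.N835.QM

open Pool.Agent.N783.PQ
open Pool.Agent.N874.QM
open Pool.Agent.N169.PM (sub_eval eval_le taylor)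

theorem spd : S_SPD := by
  intro F F' _ _ _ _ _ γ g δ hG q hq hS 𝔓 hQ𝔓 hδ𝔓 s hs
  obtain ⟨Q, hQq⟩ : ∃ Q : ℤ, Q = (q : ℤ) := ⟨_, rfl⟩
  obtain ⟨v, hv⟩ : ∃ v, v = 𝔓.valuation F' := ⟨_, rfl⟩
  rw [← hv]
  obtain ⟨htop, hmon, hroot, hδ, u, w, hcomb⟩ := hG
  have hj : ∀ r : ℤ, v (algebraMap ℤ F' r) ≤ 1 := by
    intro r
    rw [IsScalarTower.algebraMap_apply ℤ (𝓞 F') F', hv]
    exact 𝔓.valuation_le_one _
  have hγ1 : v γ ≤ 1 := by
    have hi : IsIntegral ℤ γ := ⟨g, hmon, hroot⟩
    have hi' : IsIntegral (𝓞 F') γ := hi.tower_top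
    obtain ⟨γ', hγ'⟩ := (IsIntegrallyClosed.isIntegral_iff (R := (𝓞 F')) (K := F')).1 hi'
    rw [← hγ', hv]
    exact 𝔓.valuation_le_one _
  have hvQ : v (algebraMap ℤ F' Q) < 1 := by
    rw [IsScalarTower.algebraMap_apply ℤ (𝓞 F') F', hv]
    refine (𝔓.valuation_lt_one_iff_mem _).2 ?_
    have e : algebraMap ℤ (𝓞 F') Q = (q : 𝓞 F') := by
      rw [hQq]
      simp
    rw [e]
    exact hQ𝔓
  have hvδ : v (algebraMap ℤ F' (δ : ℤ)) = 1 := by
    refine le_antisymm (hj δ) (not_lt.1 fun h => hδ𝔓 ?_)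
    rw [IsScalarTower.algebraMap_apply ℤ (𝓞 F') F', hv] at h
    have h' := (𝔓.valuation_lt_one_iff_mem _).1 h
    have e : algebraMap ℤ (𝓞 F') (δ : ℤ) = (δ : 𝓞 F') := by simp
    rw [e] at h'
    exact h'
  have hg0 : g.eval₂ (algebraMap ℤ F') γ = 0 := hroot
  -- the first approximation
  obtain ⟨c₀, hc₀⟩ : ∃ c : ℤ, v (γ - algebraMap ℤ F' c) < 1 := by
    obtain ⟨l, h, hl⟩ := hS
    rw [← hQq] at hl
    by_contra hno
    push Not at hno
    have h1 : v ((l.map fun c => X - C c).prod.eval₂ (algebraMap ℤ F') γ) < 1 := by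
      have : (l.map fun c => X - C c).prod.eval₂ (algebraMap ℤ F') γ
          = - (algebraMap ℤ F' Q * h.eval₂ (algebraMap ℤ F') γ) := by
        have h2 := hg0
        rw [hl, eval₂_add, eval₂_mul, eval₂_C] at h2
        linear_combination h2
      rw [this, Valuation.map_neg, map_mul]
      calc v (algebraMap ℤ F' Q) * v (h.eval₂ (algebraMap ℤ F') γ)
          ≤ v (algebraMap ℤ F' Q) * 1 := mul_le_mul_right (eval_le v _ hj h γ hγ1) _
        _ < 1 := by rw [mul_one]; exact hvQ
    have h2 : ∀ l : Multiset ℤ,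
        1 ≤ v ((l.map fun c => X - C c).prod.eval₂ (algebraMap ℤ F') γ) := by
      intro l
      induction l using Multiset.induction_on with
      | empty => simp
      | cons a l ih =>
        rw [Multiset.map_cons, Multiset.prod_cons, eval₂_mul, map_mul, eval₂_sub, eval₂_X, eval₂_C]
        exact one_le_mul (hno a) ih
    exact absurd h1 (not_lt.2 (h2 l))
  -- the derivative
  have hd : v ((derivative g).eval₂ (algebraMap ℤ F') γ) = 1 := by
    refine le_antisymm (eval_le v _ hj _ γ hγ1) ?_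
    have h1 := congrArg (fun p : ℤ[X] => p.eval₂ (algebraMap ℤ F') γ) hcomb
    simp only [eval₂_add, eval₂_mul, eval₂_C, hg0, mul_zero, zero_add] at h1
    have h2 := congrArg v h1
    rw [hvδ, map_mul] at h2
    rw [h2]
    calc v (w.eval₂ (algebraMap ℤ F') γ) * v ((derivative g).eval₂ (algebraMap ℤ F') γ)
        ≤ 1 * v ((derivative g).eval₂ (algebraMap ℤ F') γ) :=
          mul_le_mul_left (eval_le v _ hj _ γ hγ1) _
      _ = _ := one_mul _
  obtain ⟨t, ht⟩ : ∃ t, t = v (γ - algebraMap ℤ F' c₀) := ⟨_, rfl⟩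
  rw [← ht] at hc₀
  -- Newton's method
  have hN : ∀ n : ℕ, ∃ c : F, v (algebraMap F F' c) ≤ 1 ∧ v (γ - algebraMap F F' c) ≤ t ^ (n + 1) := by
    intro n
    induction n with
    | zero =>
      refine ⟨algebraMap ℤ F c₀, ?_, ?_⟩
      · rw [← IsScalarTower.algebraMap_apply]; exact hj c₀
      · rw [← IsScalarTower.algebraMap_apply, zero_add, pow_one, ht]
    | succ n ih =>
      obtain ⟨c, hc1, hc2⟩ := ih
      have hlt : v (γ - algebraMap F F' c) < 1 :=
        lt_of_le_of_lt hc2 (pow_lt_one₀ zero_le hc₀ (Nat.succ_ne_zero n))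
      have hdc : v ((derivative g).eval₂ (algebraMap ℤ F') (algebraMap F F' c)) = 1 := by
        have h1 : v ((derivative g).eval₂ (algebraMap ℤ F') (algebraMap F F' c) -
            (derivative g).eval₂ (algebraMap ℤ F') γ) < 1 := by
          refine lt_of_le_of_lt (sub_eval v _ hj _ _ _ hc1 hγ1) ?_
          rw [Valuation.map_sub_swap]
          exact hlt
        have h2 : (derivative g).eval₂ (algebraMap ℤ F') (algebraMap F F' c) =
          ((derivative g).eval₂ (algebraMap ℤ F') (algebraMap F F' c) -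
            (derivative g).eval₂ (algebraMap ℤ F') γ) +
            (derivative g).eval₂ (algebraMap ℤ F') γ := by ring
        rw [h2, Valuation.map_add_eq_of_lt_right]
        · exact hd
        · rw [hd]; exact h1
      have hev : ∀ q : ℤ[X], q.eval₂ (algebraMap ℤ F') (algebraMap F F' c) =
          algebraMap F F' (q.eval₂ (algebraMap ℤ F) c) := by
        intro q
        rw [Polynomial.hom_eval₂, ← IsScalarTower.algebraMap_eq]
      obtain ⟨r, hr1, hr2⟩ := taylor v (algebraMap ℤ F') hj g (algebraMap F F' c) γ hc1 hγ1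
      rw [hg0] at hr2
      have hdne : (derivative g).eval₂ (algebraMap ℤ F') (algebraMap F F' c) ≠ 0 := by
        intro h0
        rw [h0, map_zero] at hdc
        exact zero_ne_one hdc
      have hkey : γ - algebraMap F F' (c - g.eval₂ (algebraMap ℤ F) c /
          (derivative g).eval₂ (algebraMap ℤ F) c) =
          - (r * (γ - algebraMap F F' c) ^ 2 /
            (derivative g).eval₂ (algebraMap ℤ F') (algebraMap F F' c)) := by
        rw [map_sub, map_div₀, ← hev, ← hev]
        field_simp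
        linear_combination -hr2
      have hle : v (γ - algebraMap F F' (c - g.eval₂ (algebraMap ℤ F) c /
          (derivative g).eval₂ (algebraMap ℤ F) c)) ≤ t ^ (n + 1 + 1) := by
        rw [hkey, Valuation.map_neg, map_div₀, hdc, div_one, map_mul, map_pow]
        calc v r * v (γ - algebraMap F F' c) ^ 2 ≤ 1 * v (γ - algebraMap F F' c) ^ 2 :=
              mul_le_mul_left hr1 _
          _ = v (γ - algebraMap F F' c) ^ 2 := one_mul _
          _ ≤ (t ^ (n + 1)) ^ 2 := pow_le_pow_left' hc2 2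
          _ = t ^ ((n + 1) * 2) := (pow_mul _ _ _).symm
          _ ≤ t ^ (n + 1 + 1) := pow_le_pow_right_of_le_one' hc₀.le (by omega)
      refine ⟨_, ?_, hle⟩
      have h3 : algebraMap F F' (c - g.eval₂ (algebraMap ℤ F) c /
          (derivative g).eval₂ (algebraMap ℤ F) c) = γ - (γ - algebraMap F F' (c -
          g.eval₂ (algebraMap ℤ F) c / (derivative g).eval₂ (algebraMap ℤ F) c)) := by ring
      rw [h3]
      refine (v.map_sub _ _).trans (max_le hγ1 (hle.trans (pow_le_one' hc₀.le _)))
  -- the constants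
  have hC : ∀ p : F[X], ∃ M : (WithZero (Multiplicative ℤ))ˣ, ∀ c : F, v (algebraMap F F' c) ≤ 1 →
      v (aeval γ p - algebraMap F F' (p.eval c)) ≤ M * v (γ - algebraMap F F' c) := by
    intro p
    induction p using Polynomial.induction_on' with
    | add p q hp hq =>
      obtain ⟨M₁, h₁⟩ := hp
      obtain ⟨M₂, h₂⟩ := hq
      refine ⟨max M₁ M₂, fun c hc => ?_⟩
      have : aeval γ (p + q) - algebraMap F F' ((p + q).eval c) =
        (aeval γ p - algebraMap F F' (p.eval c)) + (aeval γ q - algebraMap F F' (q.eval c)) := by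
        rw [map_add, eval_add, map_add]; ring
      rw [this]
      refine (v.map_add _ _).trans (max_le ((h₁ c hc).trans ?_) ((h₂ c hc).trans ?_))
      · exact mul_le_mul_left (Units.val_le_val.2 (le_max_left _ _)) _
      · exact mul_le_mul_left (Units.val_le_val.2 (le_max_right _ _)) _
    | monomial n a =>
      obtain ⟨M, hM⟩ : ∃ M : (WithZero (Multiplicative ℤ))ˣ, v (algebraMap F F' a) ≤ M := by
        by_cases h0 : v (algebraMap F F' a) = 0
        · exact ⟨1, by rw [h0]; exact zero_le⟩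
        · exact ⟨Units.mk0 _ h0, le_refl _⟩
      refine ⟨M, fun c hc => ?_⟩
      have h1 : aeval γ (monomial n a) - algebraMap F F' ((monomial n a).eval c) =
        algebraMap F F' a * (γ ^ n - algebraMap F F' c ^ n) := by
        rw [aeval_monomial, eval_monomial, map_mul, map_pow]; ring
      have h2 : v (γ ^ n - algebraMap F F' c ^ n) ≤ v (γ - algebraMap F F' c) := by
        have := sub_eval v (algebraMap ℤ F') hj ((X : ℤ[X]) ^ n) _ _ hγ1 hc
        simpa using this
      rw [h1, map_mul]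
      exact mul_le_mul' hM h2
  -- the end
  have halg : IsAlgebraic F γ := by
    refine ⟨g.map (algebraMap ℤ F), (hmon.map _).ne_zero, ?_⟩
    rw [aeval_map_algebraMap]
    exact hroot
  obtain ⟨p, hp⟩ : ∃ p : F[X], aeval γ p = s := by
    have h1 : s ∈ Algebra.adjoin F {γ} := by
      rw [← IntermediateField.adjoin_simple_toSubalgebra_of_isAlgebraic halg, htop]
      exact Algebra.mem_top
    rw [Algebra.adjoin_singleton_eq_range_aeval] at h1
    exact h1
  obtain ⟨M, hM⟩ := hC p
  have hvs : v s ≠ 0 := (Valuation.ne_zero_iff v).2 hs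
  obtain ⟨n, hn⟩ := exists_pow_lt₀ hc₀ (Units.mk0 (v s) hvs / M)
  obtain ⟨c, hc1, hc2⟩ := hN n
  refine ⟨p.eval c, ?_⟩
  rw [← hp]
  refine lt_of_le_of_lt (hM c hc1) ?_
  rw [hp]
  calc (M : WithZero (Multiplicative ℤ)) * v (γ - algebraMap F F' c) ≤ M * t ^ (n + 1) :=
        mul_le_mul_right hc2 _
    _ ≤ M * t ^ n := mul_le_mul_right (pow_le_pow_right_of_le_one' hc₀.le (Nat.le_succ n)) _
    _ < M * ((Units.mk0 (v s) hvs / M : (WithZero (Multiplicative ℤ))ˣ) :
          WithZero (Multiplicative ℤ)) := by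
        exact (mul_lt_mul_iff_right₀ (Units.zero_lt M)).2 hn
    _ = v s := by
        rw [← Units.val_mul, mul_div_cancel]
        rfl

end Pool.Agent.N835.QM
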